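import Pool.Agent.Lib.MP_226ef1_lc.U.Tools

/-!
# Module A3 (Paper 5.8, (A3)): the type of a pair of mains
-/

set_option autoImplicit false

namespace Pool.Agent.Lib.MP_226ef1_lc.U.H47

universe u

/-- words over hubs are powers of the unique hub -/
lemma eq_rep {α : Type u} {J : TS} {G : Finset α} {main : α → Prop} {gen : Finset α → Prop}
    {N : List α → Prop} {o : α} (h : CaseA J G main gen N o) (W : List α)
    (hW : ∀ t ∈ W, t ∈ G ∧ ¬ main t) : W = List.replicate W.length o := by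
  refine List.eq_replicate_of_mem (fun t ht => ?_)
  exact (h.hub t (hW t ht).1).1 (hW t ht).2

/-- the factor `x o..o y` of the word from (8.4) -/
lemma fac1 {α : Type u} {J : TS} {G : Finset α} {main : α → Prop} {gen : Finset α → Prop}
    {N : List α → Prop} {o : α} (h : CaseA J G main gen N o) {x y z : α} (hx : x ∈ G)
    (hy : y ∈ G) (hz : z ∈ G) (mx : main x) (my : main y) (mz : main z) (W1 W2 W3 : List α)
    (hW : ∀ t ∈ W1 ++ W2 ++ W3, t ∈ G ∧ ¬ main t)
    (hN : N (x :: (W1 ++ y :: (W2 ++ z :: (W3 ++ [x]))))) :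
    N (blk o x W1.length y) ∧ N (blk o z W3.length x) := by
  have hW1 : ∀ t ∈ W1, t ∈ G ∧ ¬ main t := fun t ht => hW t (by simp [ht])
  have hW2 : ∀ t ∈ W2, t ∈ G ∧ ¬ main t := fun t ht => hW t (by simp [ht])
  have hW3 : ∀ t ∈ W3, t ∈ G ∧ ¬ main t := fun t ht => hW t (by simp [ht])
  have p1 : par main W1 = 0 := par_eq_zero_of_forall (fun t ht => (hW1 t ht).2)
  have p2 : par main W2 = 0 := par_eq_zero_of_forall (fun t ht => (hW2 t ht).2)
  have p3 : par main W3 = 0 := par_eq_zero_of_forall (fun t ht => (hW3 t ht).2)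
  have hall : par main (x :: (W1 ++ y :: (W2 ++ z :: (W3 ++ [x])))) = 0 := by
    rw [par_cons_pos mx, par_append, p1, par_cons_pos my, par_append, p2, par_cons_pos mz,
      par_append, p3, par_singleton_pos mx]
  have hG : ∀ t ∈ x :: (W1 ++ y :: (W2 ++ z :: (W3 ++ [x]))), t ∈ G := by
    intro t ht
    simp only [List.mem_cons, List.mem_append, List.not_mem_nil, or_false] at ht
    rcases ht with rfl | ht | rfl | ht | rfl | ht | rfl
    · exact hx
    · exact (hW1 t ht).1
    · exact hy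
    · exact (hW2 t ht).1
    · exact hz
    · exact (hW3 t ht).1
    · exact hx
  constructor
  · have h1 : blk o x W1.length y = x :: (W1 ++ [y]) := by
      unfold blk
      rw [← eq_rep h W1 hW1]
    rw [h1]
    have e : [] ++ (x :: (W1 ++ [y])) ++ (W2 ++ z :: (W3 ++ [x])) =
        x :: (W1 ++ y :: (W2 ++ z :: (W3 ++ [x]))) := by simp
    refine h.core.fac [] (x :: (W1 ++ [y])) (W2 ++ z :: (W3 ++ [x])) ?_ (by simp) ?_ ?_ ?_
    · rw [e]; exact hG
    · rw [par_cons_pos mx, par_append, p1, par_singleton_pos my]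
    · rw [e]; exact hall
    · rw [e]; exact hN
  · have h1 : blk o z W3.length x = z :: (W3 ++ [x]) := by
      unfold blk
      rw [← eq_rep h W3 hW3]
    rw [h1]
    have e : (x :: (W1 ++ y :: W2)) ++ (z :: (W3 ++ [x])) ++ [] =
        x :: (W1 ++ y :: (W2 ++ z :: (W3 ++ [x]))) := by simp
    refine h.core.fac (x :: (W1 ++ y :: W2)) (z :: (W3 ++ [x])) [] ?_ (by simp) ?_ ?_ ?_
    · rw [e]; exact hG
    · rw [par_cons_pos mz, par_append, p3, par_singleton_pos mx]
    · rw [e]; exact hall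
    · rw [e]; exact hN

theorem a3 : A3Statement.{u} := by
  intro J hJ α G main gen N o h hTri x hx mx gx y hy my hyx
  classical
  -- a third main
  obtain ⟨z, hz, hzx, hzy, hzo⟩ : ∃ z ∈ G, z ≠ x ∧ z ≠ y ∧ z ≠ o := by
    by_contra hcon
    push Not at hcon
    have hsub : G ⊆ {x, y, o} := by
      intro t ht
      by_cases h1 : t = x
      · simp [h1]
      · by_cases h2 : t = y
        · simp [h2]
        · simp [hcon t ht h1 h2]
    have h1 := Finset.card_le_card hsub
    have h2 : ({x, y, o} : Finset α).card ≤ 3 := Finset.card_le_three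
    have h3 := h.core.card
    unfold TS.L at h3
    omega
  have mz : main z := by
    by_contra hm
    exact hzo ((h.hub z hz).1 hm)
  obtain ⟨Zx, hZx, hZxm⟩ := gx
  -- generating sets
  have hgen : ∀ Y : Finset α, x ∈ Y → Y ⊆ G → gen Y := by
    intro Y hxY hYG
    refine h.core.gen_up Zx Y hZx ?_ hYG
    intro t ht
    rw [(hZxm t).1 ht]
    exact hxY
  have key : ∀ y' z', y' ∈ G → z' ∈ G → main y' → main z' → x ≠ y' → y' ≠ z' → z' ≠ x →
      ∃ i k, J.inJ i = true ∧ J.inJ k = true ∧ N (blk o x (J.p i) y') ∧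
        N (blk o z' (J.p k) x) := by
    intro y' z' hy' hz' my' mz' h1 h2 h3
    obtain ⟨i, j, k, hi, -, hk, -, W1, W2, W3, hW, l1, -, l3, hN⟩ :=
      h.cons.c4 x y' z' h1 h2 h3 mx my' mz' ⟨{x, y', z'}, hgen _ (by simp) (by
        intro t ht
        simp only [Finset.mem_insert, Finset.mem_singleton] at ht
        rcases ht with rfl | rfl | rfl
        · exact hx
        · exact hy'
        · exact hz'), by simp⟩
    obtain ⟨f1, f2⟩ := fac1 h hx hy' hz' mx my' mz' W1 W2 W3 hW hN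
    rw [l1] at f1
    rw [l3] at f2
    exact ⟨i, k, hi, hk, f1, f2⟩
  obtain ⟨i, -, hi, -, Ni, -⟩ := key y z hy hz my mz hyx.symm (Ne.symm hzy) hzx
  obtain ⟨-, k, -, hk, -, Nk⟩ := key z y hz hy mz my hzx.symm hzy hyx
  have bnd : ∀ t, J.inJ t = true → J.p t + 2 ≤ J.L := by
    intro t ht
    have := hJ.lt t ht
    unfold TS.p TS.L
    omega
  rcases hTri x hx mx ⟨Zx, hZx, hZxm⟩ y hy my hyx with hα | ⟨t, ht, hs, h1, h2⟩ |
    ⟨gy, t, ht, hs, h1, h2⟩
  · exfalso
    have := hα (J.p i) (bnd i hi) Ni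
    unfold TS.p at this
    omega
  · refine ⟨t, ht, fun m hm => ⟨h1 m hm, ?_⟩, fun m hm => ⟨h2 m hm, ?_⟩, Or.inl hs⟩
    · rintro rfl
      rw [← h1 (J.p i) (bnd i hi) Ni]
      exact Ni
    · rintro rfl
      rw [← h2 (J.p k) (bnd k hk) Nk]
      exact Nk
  · refine ⟨J.star t, hJ.star_inJ t ht, fun m hm => ⟨h2 m hm, ?_⟩, fun m hm => ⟨?_, ?_⟩,
      Or.inr gy⟩
    · rintro rfl
      rw [← h2 (J.p i) (bnd i hi) Ni]
      exact Ni
    · intro hN
      rw [hJ.star_star t ht]
      exact h1 m hm hN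
    · rw [hJ.star_star t ht]
      rintro rfl
      rw [← h1 (J.p k) (bnd k hk) Nk]
      exact Nk

end Pool.Agent.Lib.MP_226ef1_lc.U.H47
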