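import Pool.Agent.Lib.MP_226ef1_lc.U.Tools

/-!
# Module W (Paper 4.1 (W)): legit words with prescribed content
-/

set_option autoImplicit false

namespace Pool.Agent.Lib.MP_226ef1_lc.U.H47

/-- the word `x1 o..o x2 o..o ... xm` -/
noncomputable def wd {V : Type} (t : V → V → ℕ) : List V → List (Option V)
  | [] => []
  | [x] => [some x]
  | x :: y :: r => some x :: (List.replicate (t x y) none ++ wd t (y :: r))

lemma wd_head {V : Type} (t : V → V → ℕ) (y : V) (r : List V) :
    ∃ Z, wd t (y :: r) = some y :: Z := by
  cases r with
  | nil => exact ⟨[], rfl⟩
  | cons z r => exact ⟨_, rfl⟩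

/-- a factor that starts with a main does not start in a power of the hub -/
lemma ifx_skip {V : Type} (x : V) (s : List (Option V)) (n : ℕ) (Z : List (Option V))
    (h : (some x :: s) <:+: (List.replicate n none ++ Z)) : (some x :: s) <:+: Z := by
  induction n with
  | zero => simpa using h
  | succ n ih =>
    rw [List.replicate_succ, List.cons_append, List.infix_cons_iff] at h
    rcases h with h | h
    · rw [List.cons_prefix_cons] at h
      exact absurd h.1 (by simp)
    · exact ih h

lemma pfx_block {V : Type} (y y' : V) (Z : List (Option V)) :
    ∀ k n : ℕ, (List.replicate k none ++ [some y']) <+: (List.replicate n none ++ (some y :: Z)) →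
      k = n ∧ y' = y
  | 0, 0, h => by
    simp only [List.replicate_zero, List.nil_append, List.cons_prefix_cons] at h
    exact ⟨rfl, by simpa using h.1⟩
  | 0, n + 1, h => by
    simp only [List.replicate_zero, List.nil_append, List.replicate_succ, List.cons_append,
      List.cons_prefix_cons] at h
    exact absurd h.1 (by simp)
  | k + 1, 0, h => by
    simp only [List.replicate_zero, List.nil_append, List.replicate_succ, List.cons_append,
      List.cons_prefix_cons] at h
    exact absurd h.1 (by simp)
  | k + 1, n + 1, h => by
    simp only [List.replicate_succ, List.cons_append, List.cons_prefix_cons, true_and] at h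
    obtain ⟨h1, h2⟩ := pfx_block y y' Z k n h
    exact ⟨by omega, h2⟩

lemma wd_legit {V : Type} (t : V → V → ℕ) (q : ℕ) (xs : List V) (x y : V) (k : ℕ)
    (h : blk none (some x) k (some y) <:+: (wd t xs ++ List.replicate q none)) : k = t x y := by
  induction xs with
  | nil =>
    exfalso
    have hm : some x ∈ blk none (some x) k (some y) := by simp [blk]
    have := h.subset hm
    simp [wd] at this
  | cons a r ih =>
    cases r with
    | nil =>
      exfalso
      unfold blk at h
      simp only [wd, List.cons_append, List.nil_append, List.infix_cons_iff] at h
      rcases h with h | h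
      · rw [List.cons_prefix_cons] at h
        have hm : some y ∈ List.replicate k (none : Option V) ++ [some y] := by simp
        have := h.2.subset hm
        simp at this
      · have hm : some x ∈ some x :: (List.replicate k (none : Option V) ++ [some y]) := by simp
        have := h.subset hm
        simp at this
    | cons b r =>
      have hw : wd t (a :: b :: r) = some a :: (List.replicate (t a b) none ++ wd t (b :: r)) :=
        rfl
      rw [hw, List.cons_append, List.append_assoc, blk, List.infix_cons_iff] at h
      rcases h with h | h
      · rw [List.cons_prefix_cons] at h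
        obtain ⟨Z, hZ⟩ := wd_head t b r
        rw [hZ, List.cons_append] at h
        obtain ⟨h1, h2⟩ := pfx_block b y _ k (t a b) h.2
        have h3 : x = a := by simpa using h.1
        rw [h1, h2, h3]
      · exact ih (ifx_skip x _ _ _ h)

lemma wd_par {V : Type} (t : V → V → ℕ) (xs : List V) :
    par (fun a : Option V => a ≠ none) (wd t xs) = xs.length % 2 := by
  induction xs with
  | nil => simp [wd]
  | cons a r ih =>
    cases r with
    | nil =>
      simp only [wd]
      rw [par_singleton_pos (by simp)]
      rfl
    | cons b r =>
      have hw : wd t (a :: b :: r) = some a :: (List.replicate (t a b) none ++ wd t (b :: r)) :=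
        rfl
      rw [hw, par_cons_pos (by simp), par_append, ih, par_eq_zero_of_forall (by simp)]
      simp only [List.length_cons]
      omega

lemma wd_length {V : Type} (t : V → V → ℕ) (B : ℕ) (ht : ∀ x y, t x y ≤ B) (xs : List V) :
    (wd t xs).length ≤ xs.length * (B + 1) := by
  induction xs with
  | nil => simp [wd]
  | cons a r ih =>
    cases r with
    | nil =>
      simp only [wd, List.length_cons, List.length_nil]
      omega
    | cons b r =>
      have hw : wd t (a :: b :: r) = some a :: (List.replicate (t a b) none ++ wd t (b :: r)) :=
        rfl
      rw [hw, List.length_cons, List.length_append, List.length_replicate]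
      have h1 := ht a b
      have h2 : (a :: b :: r).length * (B + 1) = (b :: r).length * (B + 1) + (B + 1) := by
        simp only [List.length_cons]
        ring
      omega

lemma wd_mem {V : Type} (t : V → V → ℕ) (xs : List V) (x : V) :
    some x ∈ wd t xs ↔ x ∈ xs := by
  induction xs with
  | nil => simp [wd]
  | cons a r ih =>
    cases r with
    | nil => simp [wd]
    | cons b r =>
      have hw : wd t (a :: b :: r) = some a :: (List.replicate (t a b) none ++ wd t (b :: r)) :=
        rfl
      rw [hw, List.mem_cons, List.mem_append, ih]
      simp

theorem w : WStatement := by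
  intro J hJ m ty hty D hD
  classical
  set B := J.bound + 1 with hB
  have ht : ∀ x y : Fin m, tpx J ty x y ≤ B := by
    intro x y
    unfold tpx
    split_ifs with h
    · omega
    · have := hJ.lt _ (hty.mem x y h)
      unfold TS.p
      omega
  -- the mains of `D`
  set l0 : List (Fin m) := D.toList.filterMap id with hl0
  have hl0m : ∀ x, x ∈ l0 ↔ some x ∈ D := by
    intro x
    simp [hl0, List.mem_filterMap]
  have hl0l : l0.length ≤ 6 := by
    have h1 : l0.length ≤ D.toList.length := List.length_filterMap_le _ _
    rw [Finset.length_toList] at h1
    omega
  obtain ⟨xs, hx1, hx2, hx3⟩ : ∃ xs : List (Fin m), xs.length ≤ 6 ∧ xs.length % 2 = 0 ∧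
      ∀ x, x ∈ xs ↔ some x ∈ D := by
    by_cases he : l0.length % 2 = 0
    · exact ⟨l0, hl0l, he, hl0m⟩
    · cases h : l0 with
      | nil => rw [h] at he; simp at he
      | cons a r =>
        refine ⟨a :: a :: r, ?_, ?_, ?_⟩
        · have h1 : l0.length = r.length + 1 := by rw [h]; rfl
          simp only [List.length_cons]
          omega
        · have h1 : l0.length = r.length + 1 := by rw [h]; rfl
          simp only [List.length_cons]
          omega
        · intro x
          rw [← hl0m x, h]
          simp
  have hlen := wd_length (tpx J ty) B ht xs
  have hL : (wd (tpx J ty) xs).length + 1 ≤ J.L := by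
    have h1 : xs.length * (B + 1) ≤ 6 * (B + 1) := Nat.mul_le_mul_right _ hx1
    unfold TS.L
    omega
  set q := J.L - (wd (tpx J ty) xs).length with hq
  refine ⟨wd (tpx J ty) xs ++ List.replicate q none, ⟨?_, ?_⟩, ?_, ?_, ?_⟩
  · rw [List.length_append, List.length_replicate]; omega
  · intro x y k h
    exact wd_legit (tpx J ty) q xs x y k h
  · rw [List.length_append, List.length_replicate]; omega
  · rw [par_append, wd_par, hx2, par_eq_zero_of_forall (by simp)]
  · intro a
    cases a with
    | none =>
      have : 0 < q := by omega
      simp [this.ne']
    | some x =>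
      rw [List.mem_append, wd_mem, hx3]
      simp

end Pool.Agent.Lib.MP_226ef1_lc.U.H47
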